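import Pool.Agent.Helper770.Blowup

/-!
Upper bounds for the biplanar crossing numbers of `K_{6,q}` and `K_{8,q}`: blow-ups of the rhombic
dodecahedron graph (task 571-A).
-/

set_option autoImplicit false

namespace Pool.Agent.H678R3.BipUpper

open Pool.Agent.Helper770.Crossing Pool.Agent.Helper770.Straight Pool.Agent.Helper770.Blowup
  Pool.Agent.Helper770.Blowup.Data

/-- a blow-up pattern: `p` hubs and `n` clusters, drawn in both planes with integer coordinates -/
structure Cfg (p n r : ℕ) where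
  /-- base vertex of a hub -/
  hub : Fin p → Fin 14
  /-- base vertex of a cluster -/
  cl : Fin n → Fin 14
  /-- the drawings -/
  D : Bool → Data 14
  /-- the plane of an edge -/
  A : Fin p → Fin n → Bool
  /-- the crossing pairs of hubs of a cluster -/
  tab : Bool → Fin n → Fin r → Fin p × Fin p

variable {p n r : ℕ}

/-- validity of a pattern -/
structure Cfg.Valid (C : Cfg p n r) : Prop where
  ok : ∀ b, (C.D b).Ok
  hubinj : Function.Injective C.hub
  clinj : Function.Injective C.cl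
  disj : ∀ h c, C.hub h ≠ C.cl c
  planar : ∀ h h' c c', h ≠ h' → c ≠ c' → C.A h c = C.A h' c' →
    ¬ ((C.D (C.A h c)).oz (C.hub h) (C.cl c) (C.hub h') *
        (C.D (C.A h c)).oz (C.hub h) (C.cl c) (C.cl c') < 0 ∧
      (C.D (C.A h c)).oz (C.hub h') (C.cl c') (C.hub h) *
        (C.D (C.A h c)).oz (C.hub h') (C.cl c') (C.cl c) < 0)
  tabs : ∀ h h' c, h ≠ h' → C.A h c = C.A h' c →
    (C.D (C.A h c)).oz (C.hub h) (C.cl c) (C.hub h') *
        (C.D (C.A h c)).sz (C.cl c) (C.hub h) < 0 →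
    (C.D (C.A h c)).oz (C.hub h) (C.cl c) (C.hub h') *
        (C.D (C.A h c)).sz (C.cl c) (C.hub h') < 0 →
    ∃ i, C.tab (C.A h c) c i = (h, h')

/-- the cluster of a vertex -/
def cls (hn : 0 < n) {q : ℕ} (k : Fin q) : Fin n := ⟨k.val % n, Nat.mod_lt _ hn⟩

/-- the edges drawn in the plane `b` -/
def Gr (C : Cfg p n r) (hn : 0 < n) (q : ℕ) (b : Bool) : SimpleGraph (Fin p ⊕ Fin q) where
  Adj x y := (∃ h k, x = Sum.inl h ∧ y = Sum.inr k ∧ C.A h (cls hn k) = b) ∨
    (∃ h k, y = Sum.inl h ∧ x = Sum.inr k ∧ C.A h (cls hn k) = b)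
  symm := ⟨fun _ _ h => h.symm⟩
  loopless := ⟨fun x h => by
    rcases h with ⟨h, k, h1, h2, -⟩ | ⟨h, k, h1, h2, -⟩ <;> rw [h1] at h2 <;> exact Sum.inl_ne_inr h2⟩

/-- the placement of the vertices in the blown-up drawing -/
def emb (C : Cfg p n r) (hn : 0 < n) (q : ℕ) : Fin p ⊕ Fin q → Fin 14 × Fin (q / n + 1)
  | Sum.inl h => (C.hub h, 0)
  | Sum.inr k => (C.cl (cls hn k), ⟨k.val / n, Nat.lt_succ_of_le (Nat.div_le_div_right k.2.le)⟩)

lemma emb_inj {C : Cfg p n r} (hC : C.Valid) (hn : 0 < n) (q : ℕ) :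
    Function.Injective (emb C hn q) := by
  rintro (h | k) (h' | k') e
  · simp only [emb, Prod.mk.injEq] at e
    rw [hC.hubinj e.1]
  · simp only [emb, Prod.mk.injEq] at e
    exact absurd e.1 (hC.disj _ _)
  · simp only [emb, Prod.mk.injEq] at e
    exact absurd e.1.symm (hC.disj _ _)
  · simp only [emb, Prod.mk.injEq, Fin.mk.injEq] at e
    have h1 := hC.clinj e.1
    have h2 : k.val % n = k'.val % n := congrArg Fin.val h1
    congr 1
    apply Fin.ext
    rw [← Nat.div_add_mod k.val n, ← Nat.div_add_mod k'.val n, e.2, h2]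

/-- pairs of points of the same cluster -/
def Pairs (q n : ℕ) : Finset (Fin q × Fin q) :=
  Finset.univ.filter (fun x => x.1.val < x.2.val ∧ x.1.val % n = x.2.val % n)

lemma card_Pairs (q n : ℕ) : (Pairs q n).card ≤ ∑ y ∈ Finset.range q, y / n := by
  have h1 : (Pairs q n).card ≤
      ((Finset.range q).sigma (fun y => Finset.range (y / n))).card := by
    apply Finset.card_le_card_of_injOn (fun x => (⟨x.2.val, x.1.val / n⟩ : (_ : ℕ) × ℕ))
    · intro x hx
      simp only [Pairs, Finset.coe_filter, Finset.mem_univ, true_and, Set.mem_ofPred_eq] at hx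
      simp only [Finset.coe_sigma, Finset.coe_range, Set.mem_sigma_iff, Set.mem_Iio]
      refine ⟨x.2.2, ?_⟩
      have e1 := Nat.div_add_mod x.1.val n
      have e2 := Nat.div_add_mod x.2.val n
      by_contra hc
      push Not at hc
      have := Nat.mul_le_mul_left n hc
      omega
    · intro x hx y hy hxy
      simp only [Pairs, Finset.coe_filter, Finset.mem_univ, true_and, Set.mem_ofPred_eq] at hx hy
      simp only [Sigma.mk.injEq, heq_eq_eq] at hxy
      have h2 : x.2 = y.2 := Fin.ext hxy.1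
      have h3 : x.1 = y.1 := by
        apply Fin.ext
        rw [← Nat.div_add_mod x.1.val n, ← Nat.div_add_mod y.1.val n, hxy.2, hx.2, hy.2, hxy.1]
      exact Prod.ext h3 h2
  refine h1.trans ?_
  rw [Finset.card_sigma]
  simp

/-- the set of crossing pairs of edges -/
def SS (C : Cfg p n r) (hn : 0 < n) (q : ℕ) (b : Bool) :
    Finset (Sym2 (Sym2 (Fin p ⊕ Fin q))) :=
  (Pairs q n ×ˢ (Finset.univ : Finset (Fin r))).image (fun x =>
    s(s(Sum.inl (C.tab b (cls hn x.1.1) x.2).1, Sum.inr x.1.1),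
      s(Sum.inl (C.tab b (cls hn x.1.1) x.2).2, Sum.inr x.1.2)))

lemma card_SS (C : Cfg p n r) (hn : 0 < n) (q : ℕ) (b : Bool) :
    (SS C hn q b).card ≤ r * ∑ y ∈ Finset.range q, y / n := by
  refine Finset.card_image_le.trans ?_
  rw [Finset.card_product, Finset.card_univ, Fintype.card_fin, mul_comm]
  exact Nat.mul_le_mul_left _ (card_Pairs q n)

lemma sign_neg {z1 z2 : ℤ} {o1 o2 : ℝ} (h1 : 0 < (z1 : ℝ) * o1) (h2 : 0 < (z2 : ℝ) * o2)
    (h : o1 * o2 < 0) : z1 * z2 < 0 := by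
  have h3 : 0 < ((z1 : ℝ) * z2) * (o1 * o2) := by
    have := mul_pos h1 h2
    nlinarith
  have h4 : (z1 : ℝ) * z2 < 0 := by
    by_contra hc
    push Not at hc
    nlinarith
  exact_mod_cast h4

lemma oz_rev (D : Data 14) (a b c : Fin 14) : D.oz c b a = - D.oz a b c := by
  simp only [oz]; ring

/-- the normalised form of a crossing -/
lemma mem_norm {C : Cfg p n r} (hC : C.Valid) (hn : 0 < n) (q : ℕ) (b : Bool)
    {P : Fin 14 × Fin (q / n + 1) → ℂ} (hP : Good (C.D b) P) (h h' : Fin p) (k k' : Fin q)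
    (hh : h ≠ h') (hk : k.val < k'.val) (hA : C.A h (cls hn k) = b)
    (hA' : C.A h' (cls hn k') = b)
    (c1 : ori (P (emb C hn q (Sum.inl h))) (P (emb C hn q (Sum.inr k)))
        (P (emb C hn q (Sum.inl h'))) *
      ori (P (emb C hn q (Sum.inl h))) (P (emb C hn q (Sum.inr k)))
        (P (emb C hn q (Sum.inr k'))) < 0)
    (c2 : ori (P (emb C hn q (Sum.inl h'))) (P (emb C hn q (Sum.inr k')))
        (P (emb C hn q (Sum.inl h))) *
      ori (P (emb C hn q (Sum.inl h'))) (P (emb C hn q (Sum.inr k')))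
        (P (emb C hn q (Sum.inr k))) < 0) :
    s(s(Sum.inl h, Sum.inr k), s(Sum.inl h', Sum.inr k')) ∈ SS C hn q b := by
  subst hA
  set c := cls hn k with hc
  set c' := cls hn k' with hc'
  have d1 : C.hub h ≠ C.cl c := hC.disj _ _
  have d2 : C.hub h' ≠ C.cl c' := hC.disj _ _
  have d3 : C.hub h ≠ C.hub h' := fun e => hh (hC.hubinj e)
  have d4 : C.hub h' ≠ C.cl c := hC.disj _ _
  have d5 : C.hub h ≠ C.cl c' := hC.disj _ _
  by_cases hcc : c = c'
  · -- same cluster
    have hmod : k.val % n = k'.val % n := congrArg Fin.val hcc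
    have hdiv : k.val / n < k'.val / n := by
      have e1 := Nat.div_add_mod k.val n
      have e2 := Nat.div_add_mod k'.val n
      by_contra hcon
      push Not at hcon
      have := Nat.mul_le_mul_left n hcon
      omega
    have s1 := hP.one (C.hub h) (C.cl c) (C.hub h') 0
      ⟨k.val / n, Nat.lt_succ_of_le (Nat.div_le_div_right k.2.le)⟩ 0 d1 d3.symm d4
    have s2 := hP.two (C.cl c) (C.hub h)
      ⟨k.val / n, Nat.lt_succ_of_le (Nat.div_le_div_right k.2.le)⟩
      ⟨k'.val / n, Nat.lt_succ_of_le (Nat.div_le_div_right k'.2.le)⟩ 0 d1.symm hdiv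
    have s3 := hP.one (C.hub h') (C.cl c) (C.hub h) 0
      ⟨k'.val / n, Nat.lt_succ_of_le (Nat.div_le_div_right k'.2.le)⟩ 0 d4 d3 d1
    have s4 := hP.two (C.cl c) (C.hub h')
      ⟨k.val / n, Nat.lt_succ_of_le (Nat.div_le_div_right k.2.le)⟩
      ⟨k'.val / n, Nat.lt_succ_of_le (Nat.div_le_div_right k'.2.le)⟩ 0 d4.symm hdiv
    have e1 : emb C hn q (Sum.inr k') = (C.cl c,
      ⟨k'.val / n, Nat.lt_succ_of_le (Nat.div_le_div_right k'.2.le)⟩) := by
      rw [hcc]; rfl
    have e0 : emb C hn q (Sum.inr k) = (C.cl c,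
      ⟨k.val / n, Nat.lt_succ_of_le (Nat.div_le_div_right k.2.le)⟩) := rfl
    rw [e0, e1] at c1 c2
    have t1 := sign_neg s1 (show (0 : ℝ) < ((C.D (C.A h c)).sz (C.cl c) (C.hub h) : ℝ) * _ from by
      rw [← ori_rot]; exact s2) c1
    have t2 := sign_neg (z2 := -(C.D (C.A h c)).sz (C.cl c) (C.hub h')) s3
      (show (0 : ℝ) < ((-(C.D (C.A h c)).sz (C.cl c) (C.hub h') : ℤ) : ℝ) * _ from by
      rw [← ori_rot, ori_swap]
      push_cast
      rw [neg_mul_neg]
      exact s4) c2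
    rw [oz_rev, neg_mul_neg] at t2
    have hA2 : C.A h c = C.A h' c := by rw [hcc] at hA' ⊢; exact hA'.symm
    obtain ⟨i, hi⟩ := hC.tabs h h' c hh hA2 t1 t2
    simp only [SS, Finset.mem_image]
    refine ⟨((k, k'), i), ?_, ?_⟩
    · simp only [Finset.mem_product, Finset.mem_univ, and_true, Pairs, Finset.mem_filter, true_and]
      exact ⟨hk, hmod⟩
    · simp only
      rw [← hc, hi]
  · -- distinct clusters
    exfalso
    have d6 : C.cl c ≠ C.cl c' := fun e => hcc (hC.clinj e)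
    have s1 := hP.one (C.hub h) (C.cl c) (C.hub h') 0
      ⟨k.val / n, Nat.lt_succ_of_le (Nat.div_le_div_right k.2.le)⟩ 0 d1 d3.symm d4
    have s2 := hP.one (C.hub h) (C.cl c) (C.cl c') 0
      ⟨k.val / n, Nat.lt_succ_of_le (Nat.div_le_div_right k.2.le)⟩
      ⟨k'.val / n, Nat.lt_succ_of_le (Nat.div_le_div_right k'.2.le)⟩ d1 d5.symm d6.symm
    have s3 := hP.one (C.hub h') (C.cl c') (C.hub h) 0
      ⟨k'.val / n, Nat.lt_succ_of_le (Nat.div_le_div_right k'.2.le)⟩ 0 d2 d3 d5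
    have s4 := hP.one (C.hub h') (C.cl c') (C.cl c) 0
      ⟨k'.val / n, Nat.lt_succ_of_le (Nat.div_le_div_right k'.2.le)⟩
      ⟨k.val / n, Nat.lt_succ_of_le (Nat.div_le_div_right k.2.le)⟩ d2 d4.symm d6
    exact hC.planar h h' c c' hh hcc hA'.symm ⟨sign_neg s1 s2 c1, sign_neg s3 s4 c2⟩

lemma ori_prod_swap (a b c d : ℂ) : ori b a c * ori b a d = ori a b c * ori a b d := by
  rw [ori_swap a b c, ori_swap a b d]; ring

lemma mem_norm2 {C : Cfg p n r} (hC : C.Valid) (hn : 0 < n) (q : ℕ) (b : Bool)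
    {P : Fin 14 × Fin (q / n + 1) → ℂ} (hP : Good (C.D b) P) (h h' : Fin p) (k k' : Fin q)
    (hh : h ≠ h') (hk : k ≠ k') (hA : C.A h (cls hn k) = b)
    (hA' : C.A h' (cls hn k') = b)
    (c1 : ori (P (emb C hn q (Sum.inl h))) (P (emb C hn q (Sum.inr k)))
        (P (emb C hn q (Sum.inl h'))) *
      ori (P (emb C hn q (Sum.inl h))) (P (emb C hn q (Sum.inr k)))
        (P (emb C hn q (Sum.inr k'))) < 0)
    (c2 : ori (P (emb C hn q (Sum.inl h'))) (P (emb C hn q (Sum.inr k')))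
        (P (emb C hn q (Sum.inl h))) *
      ori (P (emb C hn q (Sum.inl h'))) (P (emb C hn q (Sum.inr k')))
        (P (emb C hn q (Sum.inr k))) < 0) :
    s(s(Sum.inl h, Sum.inr k), s(Sum.inl h', Sum.inr k')) ∈ SS C hn q b := by
  rcases lt_or_gt_of_ne (fun e => hk (Fin.ext e) : k.val ≠ k'.val) with hlt | hlt
  · exact mem_norm hC hn q b hP h h' k k' hh hlt hA hA' c1 c2
  · rw [Sym2.eq_swap]
    exact mem_norm hC hn q b hP h' h k' k hh.symm hlt hA' hA c2 c1

theorem crossing_Gr {C : Cfg p n r} (hC : C.Valid) (hn : 0 < n) (q : ℕ) (b : Bool) :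
    crossingNumber (Gr C hn q b) ≤ r * ∑ y ∈ Finset.range q, y / n := by
  obtain ⟨P, hP⟩ := exists_good (hC.ok b) (by norm_num) (q / n + 1)
  have hgp0 := hP.genPos (by norm_num)
  have hinj := emb_inj hC hn q
  have hgp : GenPos (fun x => P (emb C hn q x)) :=
    ⟨hgp0.inj.comp hinj, fun x y z h1 h2 h3 => hgp0.gen _ _ _ (fun e => h1 (hinj e))
      (fun e => h2 (hinj e)) (fun e => h3 (hinj e))⟩
  have key := ncard_le (G := Gr C hn q b) hgp (SS C hn q b) (by
    intro x y z w hxy hzw n1 n2 n3 n4 n5 n6 c1 c2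
    rcases hxy with ⟨h, k, rfl, rfl, hA⟩ | ⟨h, k, rfl, rfl, hA⟩ <;>
    rcases hzw with ⟨h', k', rfl, rfl, hA'⟩ | ⟨h', k', rfl, rfl, hA'⟩
    · exact mem_norm2 hC hn q b hP h h' k k' (fun e => n2 (by rw [e])) (fun e => n5 (by rw [e]))
        hA hA' c1 c2
    · rw [Sym2.eq_swap (a := Sum.inr k')]
      refine mem_norm2 hC hn q b hP h h' k k' (fun e => n3 (by rw [e])) (fun e => n4 (by rw [e]))
        hA hA' ?_ ?_
      · rw [mul_comm]; exact c1
      · rw [ori_prod_swap] at c2; exact c2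
    · rw [Sym2.eq_swap (a := Sum.inr k)]
      refine mem_norm2 hC hn q b hP h h' k k' (fun e => n4 (by rw [e])) (fun e => n3 (by rw [e]))
        hA hA' ?_ ?_
      · rw [ori_prod_swap] at c1; exact c1
      · rw [mul_comm]; exact c2
    · rw [Sym2.eq_swap (a := Sum.inr k), Sym2.eq_swap (a := Sum.inr k')]
      refine mem_norm2 hC hn q b hP h h' k k' (fun e => n5 (by rw [e])) (fun e => n2 (by rw [e]))
        hA hA' ?_ ?_
      · rw [ori_prod_swap, mul_comm] at c1; exact c1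
      · rw [ori_prod_swap, mul_comm] at c2; exact c2)
  exact (crossingNumber_le _ key.1).trans (key.2.trans (card_SS C hn q b))

theorem biplanar_le {C : Cfg p n r} (hC : C.Valid) (hn : 0 < n) (q : ℕ) :
    biplanarCrossingNumber (completeBipartiteGraph (Fin p) (Fin q)) ≤
      2 * (r * ∑ y ∈ Finset.range q, y / n) := by
  have h1 : biplanarCrossingNumber (completeBipartiteGraph (Fin p) (Fin q)) ≤
      crossingNumber (Gr C hn q true) + crossingNumber (Gr C hn q false) := by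
    apply Nat.sInf_le
    refine ⟨Gr C hn q true, Gr C hn q false, ?_, ?_, rfl⟩
    · ext x y
      simp only [SimpleGraph.sup_adj, completeBipartiteGraph_adj]
      constructor
      · rintro ((⟨h, k, rfl, rfl, -⟩ | ⟨h, k, rfl, rfl, -⟩) | (⟨h, k, rfl, rfl, -⟩ | ⟨h, k, rfl, rfl, -⟩)) <;>
          simp
      · rintro (⟨hx, hy⟩ | ⟨hx, hy⟩)
        · obtain ⟨h, rfl⟩ := Sum.isLeft_iff.mp hx
          obtain ⟨k, rfl⟩ := Sum.isRight_iff.mp hy
          cases hb : C.A h (cls hn k)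
          · exact Or.inr (Or.inl ⟨h, k, rfl, rfl, hb⟩)
          · exact Or.inl (Or.inl ⟨h, k, rfl, rfl, hb⟩)
        · obtain ⟨k, rfl⟩ := Sum.isRight_iff.mp hx
          obtain ⟨h, rfl⟩ := Sum.isLeft_iff.mp hy
          cases hb : C.A h (cls hn k)
          · exact Or.inr (Or.inr ⟨h, k, rfl, rfl, hb⟩)
          · exact Or.inl (Or.inr ⟨h, k, rfl, rfl, hb⟩)
    · rw [disjoint_iff]
      ext x y
      simp only [SimpleGraph.inf_adj, SimpleGraph.bot_adj, iff_false, not_and]
      rintro (⟨h, k, rfl, rfl, hb⟩ | ⟨h, k, rfl, rfl, hb⟩) (⟨h', k', e1, e2, hb'⟩ | ⟨h', k', e1, e2, hb'⟩)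
      · rw [← Sum.inl.inj e1, ← Sum.inr.inj e2, hb] at hb'
        exact Bool.noConfusion hb'
      · exact Sum.inl_ne_inr e1.symm
      · exact Sum.inl_ne_inr e1.symm
      · rw [← Sum.inl.inj e1, ← Sum.inr.inj e2, hb] at hb'
        exact Bool.noConfusion hb'
  have h2 := crossing_Gr hC hn q true
  have h3 := crossing_Gr hC hn q false
  omega

/-- coordinates -/
def d6t : Data 14 where
  bx v := ([-11, 3, 12, -3, -1, 0, 1, -1, -3, -4, 3, 5, 1, 0] : List ℤ).getD v.val 0
  cy v := ([-1, 0, 0, -1, -4, 5, -11, 12, -2, 2, -3, 1, -3, 2] : List ℤ).getD v.val 0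
  dx v := ([0, -1, 0, -1, -1, -1, -1, -1, -1, 0, -1, -1, -1, -1] : List ℤ).getD v.val 0
  dy v := ([-1, 1, -1, 1, 0, 0, 1, 1, 0, -1, -1, 0, -2, 1] : List ℤ).getD v.val 0

/-- coordinates -/
def d6f : Data 14 where
  bx v := ([-11, 3, 12, -3, -1, 0, 0, 1, 5, 3, -4, -3, -1, 1] : List ℤ).getD v.val 0
  cy v := ([-1, 0, 0, -1, -4, 5, 2, -3, 1, -3, 2, -2, 12, -11] : List ℤ).getD v.val 0
  dx v := ([0, -1, 0, -1, -1, -1, -1, -1, -1, -1, 0, -1, -1, -1] : List ℤ).getD v.val 0
  dy v := ([-1, 1, -1, 1, 0, 0, 1, -2, 0, -1, -1, 0, 1, 1] : List ℤ).getD v.val 0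

/-- coordinates -/
def d8t : Data 14 where
  bx v := ([-11, 3, 12, -3, -1, 0, 1, -1, -3, -4, 3, 5, 1, 0] : List ℤ).getD v.val 0
  cy v := ([-1, 0, 0, -1, -4, 5, -11, 12, -2, 2, -3, 1, -3, 2] : List ℤ).getD v.val 0
  dx v := ([-3, -2, -4, -2, -3, -1, -1, -1, -1, 0, -1, -1, -1, -1] : List ℤ).getD v.val 0
  dy v := ([-1, 1, -1, -1, -1, -1, 0, 0, 0, -1, -1, 0, -2, 1] : List ℤ).getD v.val 0

/-- coordinates -/
def d8f : Data 14 where
  bx v := ([3, -11, -3, 12, 0, -1, 1, -1, -3, -4, 3, 5, 1, 0] : List ℤ).getD v.val 0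
  cy v := ([0, -1, -1, 0, 5, -4, -11, 12, -2, 2, -3, 1, -3, 2] : List ℤ).getD v.val 0
  dx v := ([-2, -3, -2, -4, -1, -3, -1, -1, -1, 0, -1, -1, -1, -1] : List ℤ).getD v.val 0
  dy v := ([1, -1, -1, -1, -1, -1, 0, 0, 0, -1, -1, 0, -2, 1] : List ℤ).getD v.val 0

/-- the pattern of `K_(6,q)` -/
def cfg6 : Cfg 6 8 1 where
  hub h := ⟨h.val, by omega⟩
  cl c := ⟨c.val + 6, by omega⟩
  D b := if b then d6t else d6f
  A h c := decide ((c.val >>> (2 - h.val / 2)) % 2 = h.val % 2)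
  tab b c i := (if b then ([(4, 2), (0, 5), (0, 3), (3, 5), (4, 1), (1, 2), (4, 3), (5, 1)] : List (Fin 6 × Fin 6)) else
    ([(5, 1), (4, 3), (1, 2), (4, 1), (3, 5), (0, 3), (0, 5), (4, 2)] : List (Fin 6 × Fin 6))).getD (c.val + i.val) (0, 0)

/-- the pattern of `K_(8,q)` -/
def cfg8 : Cfg 8 6 2 where
  hub h := ⟨h.val + 6, by omega⟩
  cl c := ⟨c.val, by omega⟩
  D b := if b then d8t else d8f
  A h c := decide ((h.val >>> (2 - c.val / 2)) % 2 = c.val % 2)
  tab b c i := (if b then ([(0, 2), (1, 3), (6, 4), (7, 5), (4, 0), (5, 1), (2, 6), (3, 7), (0, 4), (2, 6), (3, 1), (7, 5)] : List (Fin 8 × Fin 8)) else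
    ([(6, 4), (7, 5), (0, 2), (1, 3), (2, 6), (3, 7), (4, 0), (5, 1), (3, 1), (7, 5), (0, 4), (2, 6)] : List (Fin 8 × Fin 8))).getD (2 * c.val + i.val) (0, 0)

lemma ok6t : d6t.Ok where
  base := by decide +kernel
  dir := by decide +kernel

lemma ok6f : d6f.Ok where
  base := by decide +kernel
  dir := by decide +kernel

lemma ok8t : d8t.Ok where
  base := by decide +kernel
  dir := by decide +kernel

lemma ok8f : d8f.Ok where
  base := by decide +kernel
  dir := by decide +kernel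

lemma valid6 : cfg6.Valid where
  ok b := by
    cases b
    · exact ok6f
    · exact ok6t
  hubinj := by decide +kernel
  clinj := by decide +kernel
  disj := by decide +kernel
  planar := by decide +kernel
  tabs := by decide +kernel

lemma valid8 : cfg8.Valid where
  ok b := by
    cases b
    · exact ok8f
    · exact ok8t
  hubinj := by decide +kernel
  clinj := by decide +kernel
  disj := by decide +kernel
  planar := by decide +kernel
  tabs := by decide +kernel

lemma sum_div8 (q : ℕ) : (∑ y ∈ Finset.range q, y / 8) = (q / 8) * (q - 4 * (q / 8) - 4) := by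
  induction q with
  | zero => rfl
  | succ q ih =>
    rw [Finset.sum_range_succ, ih]
    obtain ⟨k, s, hs, rfl⟩ : ∃ k s, s < 8 ∧ q = 8 * k + s :=
      ⟨q / 8, q % 8, Nat.mod_lt _ (by norm_num), (Nat.div_add_mod q 8).symm⟩
    have e1 : (8 * k + s) / 8 = k := by omega
    rw [e1]
    by_cases h7 : s = 7
    · subst h7
      have e2 : (8 * k + 7 + 1) / 8 = k + 1 := by omega
      rw [e2]
      rcases k with _ | k
      · norm_num
      · have e3 : 8 * (k + 1) + 7 - 4 * (k + 1) - 4 = 4 * k + 7 := by omega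
        have e4 : 8 * (k + 1) + 7 + 1 - 4 * (k + 1 + 1) - 4 = 4 * k + 4 := by omega
        rw [e3, e4]; ring
    · have e2 : (8 * k + s + 1) / 8 = k := by omega
      rw [e2]
      rcases k with _ | k
      · norm_num
      · have e3 : 8 * (k + 1) + s - 4 * (k + 1) - 4 = 4 * k + s := by omega
        have e4 : 8 * (k + 1) + s + 1 - 4 * (k + 1) - 4 = 4 * k + s + 1 := by omega
        rw [e3, e4]; ring

lemma sum_div6 (q : ℕ) : (∑ y ∈ Finset.range q, y / 6) = (q / 6) * (q - 3 * (q / 6) - 3) := by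
  induction q with
  | zero => rfl
  | succ q ih =>
    rw [Finset.sum_range_succ, ih]
    obtain ⟨k, s, hs, rfl⟩ : ∃ k s, s < 6 ∧ q = 6 * k + s :=
      ⟨q / 6, q % 6, Nat.mod_lt _ (by norm_num), (Nat.div_add_mod q 6).symm⟩
    have e1 : (6 * k + s) / 6 = k := by omega
    rw [e1]
    by_cases h7 : s = 5
    · subst h7
      have e2 : (6 * k + 5 + 1) / 6 = k + 1 := by omega
      rw [e2]
      rcases k with _ | k
      · norm_num
      · have e3 : 6 * (k + 1) + 5 - 3 * (k + 1) - 3 = 3 * k + 5 := by omega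
        have e4 : 6 * (k + 1) + 5 + 1 - 3 * (k + 1 + 1) - 3 = 3 * k + 3 := by omega
        rw [e3, e4]; ring
    · have e2 : (6 * k + s + 1) / 6 = k := by omega
      rw [e2]
      rcases k with _ | k
      · norm_num
      · have e3 : 6 * (k + 1) + s - 3 * (k + 1) - 3 = 3 * k + s := by omega
        have e4 : 6 * (k + 1) + s + 1 - 3 * (k + 1) - 3 = 3 * k + s + 1 := by omega
        rw [e3, e4]; ring

theorem upper6 (q : ℕ) : biplanarCrossingNumber (completeBipartiteGraph (Fin 6) (Fin q)) ≤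
    2 * (q / 8) * (q - 4 * (q / 8) - 4) := by
  refine (biplanar_le valid6 (by norm_num) q).trans (le_of_eq ?_)
  rw [sum_div8]; ring

theorem upper8 (q : ℕ) : biplanarCrossingNumber (completeBipartiteGraph (Fin 8) (Fin q)) ≤
    4 * (q / 6) * (q - 3 * (q / 6) - 3) := by
  refine (biplanar_le valid8 (by norm_num) q).trans (le_of_eq ?_)
  rw [sum_div6]; ring

end Pool.Agent.H678R3.BipUpper
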